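import Pool.Agent.Helper78.BO.FLP

/-!
Completion of the small clusters with additional control of arbitrary linear functionals.
-/

namespace Pool.Agent.Helper98.BK

open Pool.Agent.Helper53.BO Pool.Agent.Helper78.BO
open scoped Classical

theorem flpK {V J I : Type} [Fintype V] [Fintype J] [Fintype I] (c : J → V → ℝ) (y : V → ℝ)
    (g : V → V) {al om N T Λ : ℝ} {nc : ℕ} (hom : 0 ≤ om)
    (hN : (Fintype.card V : ℝ) + Fintype.card J + Fintype.card I + 3 ≤ N)
    (hcol : ∀ i, ∑ j, c j i ^ 2 ≤ T) (hc : ∀ j i, c j i ^ 2 ≤ 1) (hT : 0 ≤ T)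
    (hy : ∀ i, |y i| ≤ 1) (hcl : ∀ v, (Set.ncard {u | |y u| < 1 ∧ g u = v}) ≤ nc)
    (hbig : ∀ j u u', |y u| < 1 → |y u'| < 1 → al < c j u ^ 2 → al < c j u' ^ 2 → g u = g u')
    (hsmall : ∀ j, ∑ u, (if |y u| < 1 ∧ c j u ^ 2 ≤ al then c j u ^ 2 else 0) ≤ om)
    (hpar : 8 * nc * om * Real.log (8 * N) ≤ 1) (hΛ : 1 ≤ Λ) (hΛc : 4 * (nc : ℝ) ≤ Real.exp Λ)
    (ρ : I → V → ℝ) (hρ : ∀ k, ∑ u, ρ k u ^ 2 ≤ 1) :
    ∃ χ : V → ℝ, (∀ i, |χ i| = 1) ∧ (∀ i, |y i| = 1 → χ i = y i) ∧
      (∀ j, |∑ i, c j i * (χ i - y i)| ≤ 2 * (4000 * (√T + √Λ * (1 + Real.log Λ)) + 1)) ∧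
      ∀ k, |∑ i, ρ k i * (χ i - y i)| ≤ 2 * √(8 * (nc + 1) * Real.log (8 * N)) := by
  have hcV : (0 : ℝ) ≤ Fintype.card V := Nat.cast_nonneg _
  have hcJ : (0 : ℝ) ≤ Fintype.card J := Nat.cast_nonneg _
  have hcI : (0 : ℝ) ≤ Fintype.card I := Nat.cast_nonneg _
  have hl8 : 1 ≤ Real.log (8 * N) := by
    rw [Real.le_log_iff_exp_le (by linarith)]
    have := Real.exp_one_lt_d9
    linarith
  have hl0 : 0 < Real.log (8 * N) := by linarith
  set R : ℝ := 4000 * (√T + √Λ * (1 + Real.log Λ)) with hR
  have hR0 : 0 ≤ R := by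
    have h1 := Real.log_nonneg hΛ
    rw [hR]; positivity
  set R2 : ℝ := √(8 * (nc + 1) * Real.log (8 * N)) with hR2
  have hR20 : 0 < R2 := Real.sqrt_pos.2 (by positivity)
  have hR2s : R2 ^ 2 = 8 * (nc + 1) * Real.log (8 * N) := Real.sq_sqrt (by positivity)
  have main : ∀ U : Set V, U ⊆ {i | |y i| < 1} → ∃ e : V → ℝ, (∀ i ∈ U, |e i| = 1) ∧
      (∀ i, i ∉ U → e i = 0) ∧ ∀ j, |∑ i, (Sum.elim c (fun k i => (R + 1) / R2 * ρ k i) j i) * e i|
        ≤ R + 1 := by
    intro U hU
    set UF : Finset V := Finset.univ.filter fun u => u ∈ U with hUF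
    let K : V → Finset V := fun v => UF.filter fun u => g u = v
    have hKU : ∀ v u, u ∈ K v → u ∈ U ∧ g u = v := by
      intro v u hu
      simpa [K, hUF] using hu
    have hfib : ∀ f : V → ℝ, ∑ v, ∑ u ∈ K v, f u = ∑ u ∈ UF, f u := by
      intro f
      rw [← Finset.sum_fiberwise UF g f]
    have hKc : ∀ v, (K v).card ≤ nc := by
      intro v
      refine le_trans ?_ (hcl v)
      rw [← Set.ncard_coe_finset]
      apply Set.ncard_le_ncard _ (Set.toFinite _)
      intro u hu
      have := hKU v u (by exact_mod_cast hu)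
      exact ⟨hU this.1, this.2⟩
    let Big : J → V → Prop := fun j v => ∃ u ∈ K v, al < c j u ^ 2
    have hGS : ∀ v, ∃ ev : V → ℝ, (∀ i, |ev i| = 1) ∧ ∀ j, |∑ u ∈ K v, c j u * ev u| ≤ R := by
      intro v
      obtain ⟨e, e1, -, e3⟩ := full (V := {u // u ∈ K v}) (J := J) (fun j u => c j u.1) (T := T)
        (Λ := Λ) (fun i => hcol i.1) (fun j i => hc j i.1) hT hΛ (by
          rw [Fintype.card_coe]
          have : ((K v).card : ℝ) ≤ nc := by exact_mod_cast hKc v
          linarith) (z := fun _ => 0) (fun _ => by simp)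
      refine ⟨fun u => if h : u ∈ K v then e ⟨u, h⟩ else 1, fun i => ?_, fun j => ?_⟩
      · dsimp only
        split_ifs with h
        · exact e1 _
        · exact abs_one
      · have h1 := e3 j
        rw [← hR] at h1
        refine le_trans (le_of_eq ?_) h1
        congr 1
        rw [← Finset.sum_coe_sort (K v)]
        refine Finset.sum_congr rfl fun u _ => ?_
        change c j u.1 * (if h : u.1 ∈ K v then e ⟨u.1, h⟩ else 1) = c j u.1 * (e u - 0)
        rw [dif_pos u.2, sub_zero]
    choose ev hev1 hevb using hGS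
    -- the small parts
    set w0 : ℝ := 1 / (8 * Real.log (8 * N)) with hw0
    have hw00 : 0 < w0 := by positivity
    let x : J ⊕ I → V → ℝ := fun j v => match j with
      | Sum.inl j => if Big j v then 0 else ∑ u ∈ K v, c j u * ev v u
      | Sum.inr k => 1 / R2 * ∑ u ∈ K v, ρ k u * ev v u
    have hx : ∀ j, ∑ v, x j v ^ 2 ≤ w0 := by
      intro j
      rcases j with j | k
      · have h1 : ∀ v, x (Sum.inl j) v ^ 2
            ≤ nc * ∑ u ∈ K v, (if |y u| < 1 ∧ c j u ^ 2 ≤ al then c j u ^ 2 else 0) := by
          intro v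
          by_cases hb : Big j v
          · simp only [x, hb, if_true]
            rw [zero_pow two_ne_zero]
            apply mul_nonneg (by positivity)
            exact Finset.sum_nonneg fun u _ => by split_ifs <;> positivity
          · simp only [x, hb, if_false]
            refine (sq_sum_le_card_mul_sum_sq).trans ?_
            have h2 : ∑ u ∈ K v, (c j u * ev v u) ^ 2 = ∑ u ∈ K v,
                (if |y u| < 1 ∧ c j u ^ 2 ≤ al then c j u ^ 2 else 0) := by
              refine Finset.sum_congr rfl fun u hu => ?_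
              have hu' : u ∈ K v := hu
              have h3 : |y u| < 1 := hU (hKU v u hu').1
              have h4 : c j u ^ 2 ≤ al := by
                by_contra hcon
                exact hb ⟨u, hu', not_le.1 hcon⟩
              rw [if_pos ⟨h3, h4⟩, mul_pow, ← sq_abs (ev v u), hev1 v u]
              ring
            rw [h2]
            apply mul_le_mul_of_nonneg_right
            · exact_mod_cast hKc v
            · exact Finset.sum_nonneg fun u _ => by split_ifs <;> positivity
        calc ∑ v, x (Sum.inl j) v ^ 2 ≤ ∑ v, nc * ∑ u ∈ K v,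
              (if |y u| < 1 ∧ c j u ^ 2 ≤ al then c j u ^ 2 else 0) :=
              Finset.sum_le_sum fun v _ => h1 v
          _ = nc * ∑ u ∈ UF, (if |y u| < 1 ∧ c j u ^ 2 ≤ al then c j u ^ 2 else 0) := by
              rw [← Finset.mul_sum, hfib]
          _ ≤ nc * om := by
              apply mul_le_mul_of_nonneg_left _ (by positivity)
              refine le_trans ?_ (hsmall j)
              exact Finset.sum_le_sum_of_subset_of_nonneg (Finset.subset_univ _)
                fun u _ _ => by split_ifs <;> positivity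
          _ ≤ w0 := by
              rw [hw0, le_div_iff₀ (by positivity)]
              linarith
      · have h1 : ∀ v, x (Sum.inr k) v ^ 2 ≤ 1 / R2 ^ 2 * (nc * ∑ u ∈ K v, ρ k u ^ 2) := by
          intro v
          simp only [x]
          rw [mul_pow, div_pow, one_pow]
          apply mul_le_mul_of_nonneg_left _ (by positivity)
          refine (sq_sum_le_card_mul_sum_sq).trans ?_
          have h2 : ∑ u ∈ K v, (ρ k u * ev v u) ^ 2 = ∑ u ∈ K v, ρ k u ^ 2 := by
            refine Finset.sum_congr rfl fun u _ => ?_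
            rw [mul_pow, ← sq_abs (ev v u), hev1 v u]
            ring
          rw [h2]
          apply mul_le_mul_of_nonneg_right
          · exact_mod_cast hKc v
          · exact Finset.sum_nonneg fun u _ => sq_nonneg _
        calc ∑ v, x (Sum.inr k) v ^ 2 ≤ ∑ v, 1 / R2 ^ 2 * (nc * ∑ u ∈ K v, ρ k u ^ 2) :=
              Finset.sum_le_sum fun v _ => h1 v
          _ = 1 / R2 ^ 2 * (nc * ∑ u ∈ UF, ρ k u ^ 2) := by
              rw [← Finset.mul_sum, ← Finset.mul_sum, hfib]
          _ ≤ 1 / R2 ^ 2 * (nc * 1) := by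
              apply mul_le_mul_of_nonneg_left _ (by positivity)
              apply mul_le_mul_of_nonneg_left _ (by positivity)
              refine le_trans ?_ (hρ k)
              exact Finset.sum_le_sum_of_subset_of_nonneg (Finset.subset_univ _)
                fun u _ _ => sq_nonneg _
          _ ≤ w0 := by
              rw [hR2s, hw0, mul_one, one_div_mul_eq_div, div_le_div_iff₀ (by positivity)
                (by positivity)]
              have : (0 : ℝ) ≤ nc := Nat.cast_nonneg _
              nlinarith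
    obtain ⟨s, hs1, hsb⟩ := ho_proof V (J ⊕ I) x w0 hx
    have hsb' : ∀ j, |∑ v, x j v * s v| ≤ 1 := by
      intro j
      refine (hsb j).trans ?_
      rw [Real.sqrt_le_one]
      have h1 : Real.log (2 * Fintype.card (J ⊕ I) + 2) ≤ Real.log (8 * N) := by
        rw [Fintype.card_sum]
        push_cast
        exact Real.log_le_log (by linarith) (by linarith)
      have h4 : 2 * w0 * Real.log (2 * Fintype.card (J ⊕ I) + 2)
          ≤ 2 * w0 * Real.log (8 * N) :=
        mul_le_mul_of_nonneg_left h1 (by positivity)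
      have h5 : 2 * w0 * Real.log (8 * N) = 1 / 4 := by
        rw [hw0]; field_simp; norm_num
      linarith
    have hsumU : ∀ f : V → ℝ, ∑ i, f i * (if i ∈ U then s (g i) * ev (g i) i else 0)
          = ∑ v, s v * ∑ u ∈ K v, f u * ev v u := by
      intro f
      have h2 : ∑ i, f i * (if i ∈ U then s (g i) * ev (g i) i else 0)
          = ∑ i ∈ UF, f i * (s (g i) * ev (g i) i) := by
        rw [hUF, Finset.sum_filter]
        refine Finset.sum_congr rfl fun i _ => ?_
        split_ifs <;> simp
      rw [h2, ← hfib]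
      refine Finset.sum_congr rfl fun v _ => ?_
      rw [Finset.mul_sum]
      refine Finset.sum_congr rfl fun u hu => ?_
      have : g u = v := (hKU v u hu).2
      rw [this]
      ring
    refine ⟨fun i => if i ∈ U then s (g i) * ev (g i) i else 0, fun i hi => ?_, fun i hi => ?_,
      fun j => ?_⟩
    · simp only [hi, if_true]
      rw [abs_mul, hs1, hev1, one_mul]
    · simp only [hi, if_false]
    rcases j with j | k
    · simp only [Sum.elim_inl]
      rw [hsumU]
      have h3 : ∑ v, s v * ∑ u ∈ K v, c j u * ev v u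
          = ∑ v, x (Sum.inl j) v * s v
            + ∑ v, (if Big j v then s v * ∑ u ∈ K v, c j u * ev v u else 0) := by
        rw [← Finset.sum_add_distrib]
        refine Finset.sum_congr rfl fun v _ => ?_
        by_cases hb : Big j v
        · simp only [x, hb, if_true]
          ring
        · simp only [x, hb, if_false]
          ring
      rw [h3]
      refine (abs_add_le _ _).trans ?_
      have h7 : |∑ v, (if Big j v then s v * ∑ u ∈ K v, c j u * ev v u else 0)| ≤ R := by
        by_cases hex : ∃ v, Big j v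
        · obtain ⟨v0, hv0⟩ := hex
          rw [Finset.sum_eq_single v0]
          · rw [if_pos hv0, abs_mul, hs1, one_mul]
            exact hevb v0 j
          · intro v _ hne
            rw [if_neg]
            rintro ⟨u, hu, hlt⟩
            obtain ⟨u0, hu0, hlt0⟩ := hv0
            apply hne
            have a1 := hKU v u hu
            have a0 := hKU v0 u0 hu0
            have := hbig j u u0 (hU a1.1) (hU a0.1) hlt hlt0
            rw [← a1.2, ← a0.2, this]
          · intro h; exact absurd (Finset.mem_univ _) h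
        · push Not at hex
          rw [Finset.sum_eq_zero fun v _ => if_neg (hex v), abs_zero]
          exact hR0
      linarith [hsb' (Sum.inl j)]
    · simp only [Sum.elim_inr]
      rw [hsumU]
      have h3 : ∑ v, s v * ∑ u ∈ K v, (R + 1) / R2 * ρ k u * ev v u
          = (R + 1) * ∑ v, x (Sum.inr k) v * s v := by
        rw [Finset.mul_sum]
        refine Finset.sum_congr rfl fun v _ => ?_
        simp only [x]
        have h4 : ∑ u ∈ K v, (R + 1) / R2 * ρ k u * ev v u
            = (R + 1) / R2 * ∑ u ∈ K v, ρ k u * ev v u := by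
          rw [Finset.mul_sum]
          exact Finset.sum_congr rfl fun u _ => by ring
        rw [h4]
        ring
      rw [h3, abs_mul, abs_of_nonneg (by linarith)]
      have h5 := hsb' (Sum.inr k)
      nlinarith
  obtain ⟨χ, h1, h2, h3⟩ := ld_proof V (J ⊕ I) (Sum.elim c (fun k i => (R + 1) / R2 * ρ k i))
    {i | |y i| < 1} (R + 1) main y hy (fun i hi => le_antisymm (hy i) (not_lt.1 hi))
  refine ⟨χ, h1, h2, fun j => h3 (Sum.inl j), fun k => ?_⟩
  have h4 := h3 (Sum.inr k)
  simp only [Sum.elim_inr] at h4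
  have h5 : ∑ i, (R + 1) / R2 * ρ k i * (χ i - y i) = (R + 1) / R2 * ∑ i, ρ k i * (χ i - y i) := by
    rw [Finset.mul_sum]
    exact Finset.sum_congr rfl fun i _ => by ring
  rw [h5, abs_mul, abs_of_nonneg (by positivity)] at h4
  have h6 : (R + 1) / R2 * |∑ i, ρ k i * (χ i - y i)| ≤ (R + 1) / R2 * (2 * R2) := by
    refine h4.trans (le_of_eq ?_)
    field_simp
  exact le_of_mul_le_mul_left h6 (by positivity)

end Pool.Agent.Helper98.BK
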