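import Pool.Agent.Helper78.BO.WMain

/-!
The walk of helper78 with additional linear tests.
-/

namespace Pool.Agent.Helper98.BK

open Real Pool.Agent.Helper26.Gsw Pool.Agent.Helper22.LT Pool.Agent.Helper78.BO
open scoped RealInnerProductSpace Classical

variable {V J X Y : Type*} [Fintype V] [Fintype J] [Fintype X] [Fintype Y]

/-- potential of a linear test -/
noncomputable def T4 (c : J → V → ℝ) (κ w : ℝ) (lam : J → ℝ) (z : V → ℝ) (A : Finset V)
    (x : V → ℝ) (l : J → ℕ) : ℝ :=
  w * exp (∑ j, lam j * (rs c x j - rs c z j) + JJ c κ A l lam / 2)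

theorem T4_nonneg (c : J → V → ℝ) (κ : ℝ) {w : ℝ} (hw : 0 ≤ w) (lam : J → ℝ) (z : V → ℝ)
    (A : Finset V) (x : V → ℝ) (l : J → ℕ) : 0 ≤ T4 c κ w lam z A x l :=
  mul_nonneg hw (exp_pos _).le

theorem T4_mono (c : J → V → ℝ) (κ : ℝ) {w : ℝ} (hw : 0 ≤ w) (lam : J → ℝ) (z : V → ℝ)
    {A A' : Finset V} (hA : A' ⊆ A) (x : V → ℝ) (l : J → ℕ) :
    T4 c κ w lam z A' x l ≤ T4 c κ w lam z A x l := by
  unfold T4
  refine mul_le_mul_of_nonneg_left (exp_le_exp.2 ?_) hw
  have := JJ_mono c κ hA l lam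
  linarith

theorem JJ_anti (c : J → V → ℝ) {κ : ℝ} (hκ : 0 < κ) (A : Finset V) {l l' : J → ℕ}
    (lam : J → ℝ) (hl : ∀ j, l' j = l j ∨ l' j = l j + 1) : JJ c κ A l' lam ≤ JJ c κ A l lam := by
  have key : ∀ T : Finset J, JJ c κ A (fun j => if j ∈ T then l' j else l j) lam
      ≤ JJ c κ A l lam := by
    intro T
    induction T using Finset.induction_on with
    | empty => simp
    | insert S T hST ih =>
      have e1 : (fun j => if j ∈ insert S T then l' j else l j)
          = Function.update (fun j => if j ∈ T then l' j else l j) S (l' S) := by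
        funext j
        by_cases hj : j = S
        · subst hj; simp
        · rw [Function.update_of_ne hj]
          simp [hj]
      rw [e1]
      have e2 : (fun j => if j ∈ T then l' j else l j) S = l S := by simp [hST]
      rcases hl S with h | h
      · rw [h, ← e2, Function.update_eq_self]
        exact ih
      · rw [h]
        have h3 := JJ_update_le c hκ A (fun j => if j ∈ T then l' j else l j) lam S
        have e3 : (if S ∈ T then l' S else l S) = l S := if_neg hST
        rw [e3] at h3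
        exact h3.trans ih
  have := key Finset.univ
  simpa using this

theorem T4_anti (c : J → V → ℝ) {κ w : ℝ} (hκ : 0 < κ) (hw : 0 ≤ w) (lam : J → ℝ) (z : V → ℝ)
    (A : Finset V) (x : V → ℝ) {l l' : J → ℕ} (hl : ∀ j, l' j = l j ∨ l' j = l j + 1) :
    T4 c κ w lam z A x l' ≤ T4 c κ w lam z A x l := by
  unfold T4
  refine mul_le_mul_of_nonneg_left (exp_le_exp.2 ?_) hw
  have := JJ_anti c hκ A lam hl
  linarith

theorem Sm_T4 (c : J → V → ℝ) {κ w : ℝ} (hw : 0 ≤ w) (lam : J → ℝ) (z : V → ℝ)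
    (W : Finset V) (l : J → ℕ) {E : ((V → ℝ) → ℝ) →ₗ[ℝ] ℝ} {x : V → ℝ}
    (hE : ∀ lam, E (ex c κ l W lam) ≤ ex c κ l W lam x) :
    Sm E x (fun y => T4 c κ w lam z (Al W y) y l) := by
  have hfun : (fun y => T4 c κ w lam z (Al W y) y l)
      = (w * exp (-∑ j, lam j * rs c z j)) • ex c κ l W lam := by
    funext y
    simp only [Pi.smul_apply, smul_eq_mul]
    unfold T4 ex
    rw [mul_assoc, ← exp_add]
    congr 2
    have e1 : ∑ j, lam j * (rs c y j - rs c z j)
        = ∑ j, lam j * rs c y j - ∑ j, lam j * rs c z j := by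
      rw [← Finset.sum_sub_distrib]
      exact Finset.sum_congr rfl fun j _ => by ring
    rw [e1]
    ring
  rw [hfun]
  exact (show Sm E x (ex c κ l W lam) from hE lam).smul (mul_nonneg hw (exp_pos _).le)

/-- sum of the linear tests -/
noncomputable def S4 (c : J → V → ℝ) (κ : ℝ) (w : Y → ℝ) (lam : Y → J → ℝ) (z : V → ℝ)
    (A : Finset V) (x : V → ℝ) (l : J → ℕ) : ℝ := ∑ k, T4 c κ (w k) (lam k) z A x l

theorem S4_nonneg (c : J → V → ℝ) (κ : ℝ) {w : Y → ℝ} (hw : ∀ k, 0 ≤ w k) (lam : Y → J → ℝ)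
    (z : V → ℝ) (A : Finset V) (x : V → ℝ) (l : J → ℕ) : 0 ≤ S4 c κ w lam z A x l :=
  Finset.sum_nonneg fun k _ => T4_nonneg c κ (hw k) _ _ _ _ _

theorem main_inductionK (p : Prm V J X) {w : Y → ℝ} (hw : ∀ k, 0 ≤ w k) (lam : Y → J → ℝ)
    (z : V → ℝ) (n : ℕ) :
    ∀ (x : V → ℝ) (l : J → ℕ) (h : J → ℝ), (Al (p.U l) x).card ≤ n →
      p.Inv z x l h → p.Tot (Al (p.U l) x) x l h + S4 p.c p.κ w lam z (Al (p.U l) x) x l < 1 →
      ∃ (y : V → ℝ) (l' : J → ℕ) (h' : J → ℝ), p.Inv z y l' h' ∧
        Al (p.U l') y = ∅ ∧ p.Tot ∅ y l' h' + S4 p.c p.κ w lam z ∅ y l' < 1 := by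
  induction n with
  | zero =>
    intro x l h hc hI h3
    have he := Finset.card_eq_zero.1 (Nat.le_zero.1 hc)
    rw [he] at h3
    exact ⟨x, l, h, hI, he, h3⟩
  | succ n ih =>
    intro x l h hc hI h3
    rcases (Al (p.U l) x).eq_empty_or_nonempty with he | ⟨q, hq⟩
    · rw [he] at h3
      exact ⟨x, l, h, hI, he, h3⟩
    · have hbp : ‖bv p.c p.κ l q‖ ≤ 1 := by
        have g0 := p.mem_U.1 (mem_Al.1 hq).1
        have g1 : ‖bv p.c p.κ l q‖ ^ 2 ≤ 1 := by
          rw [normsq_bv p.c p.κ_pos]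
          calc ∑ j, 2 ^ l j / p.κ * p.c j q ^ 2 = load p.c l q / p.κ := by
                unfold load
                rw [Finset.sum_div]
                exact Finset.sum_congr rfl fun j _ => by ring
            _ ≤ 1 := by rw [div_le_one p.κ_pos]; exact g0
        have g2 : ‖bv p.c p.κ l q‖ ^ 2 ≤ 1 ^ 2 := by rw [one_pow]; exact g1
        exact (abs_le_of_sq_le_sq' g2 zero_le_one).2
      obtain ⟨E, hE, hb⟩ := phase_E p.c p.κ_pos l hI.hx hq hbp
      have hsm := p.Sm_Tot (p.U l) l h (hE.const 1) hb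
      have hsm4 : Sm E x (fun y => S4 p.c p.κ w lam z (Al (p.U l) y) y l) := by
        have e : (fun y => S4 p.c p.κ w lam z (Al (p.U l) y) y l)
            = ∑ k, (fun y => T4 p.c p.κ (w k) (lam k) z (Al (p.U l) y) y l) := by
          funext y
          simp only [Finset.sum_apply]
          rfl
        rw [e]
        exact Sm.sum _ fun k _ => Sm_T4 p.c (hw k) _ _ _ _ hb
      have hlt : E ((fun y => p.Tot (Al (p.U l) y) y l h)
          + (fun y => S4 p.c p.κ w lam z (Al (p.U l) y) y l)) < 1 :=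
        lt_of_le_of_lt (hsm.add hsm4) h3
      obtain ⟨y, ⟨y1, y0, y2, y3⟩, y4⟩ := hE.exists_lt hlt
      have y4' : p.Tot (Al (p.U l) y) y l h + S4 p.c p.κ w lam z (Al (p.U l) y) y l < 1 := y4
      have hS0 := S4_nonneg p.c p.κ hw lam z (Al (p.U l) y) y l
      obtain ⟨l', h', r1, r2, r3, r4⟩ := p.relevel (z := z)
        (lt_of_le_of_lt (le_add_of_nonneg_right hS0) y4') (fun j hj => by
          have g1 := y3 j
          have g2 := hI.h1 j hj
          have g3 := gp_sq_ge p.κ_pos (p.zz_nonneg j (l j)) (l j)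
          have g4 : |rs p.c y j - rs p.c x j| ≤ gp p.κ (p.zz j (l j)) (l j) / 3 := by
            apply abs_le_of_sq_le_sq
            · rw [div_pow]; linarith
            · have := gp_nonneg p.κ (p.zz j (l j)) (l j)
              positivity
          have e : rs p.c y j - h j = (rs p.c y j - rs p.c x j) + (rs p.c x j - h j) := by ring
          rw [e]
          refine (abs_add_le _ _).trans_lt ?_
          linarith) hI.h3 Finset.univ
      have hl01 : ∀ j, l' j = l j ∨ l' j = l j + 1 := by
        intro j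
        rcases r2 j (Finset.mem_univ j) with hh | hh
        · exact Or.inl hh.1
        · exact Or.inr hh.2.1
      have hll : ∀ j, l j ≤ l' j := by
        intro j
        rcases hl01 j with hh | hh
        · exact hh.ge
        · rw [hh]; exact Nat.le_succ _
      have hWW : p.U l' ⊆ p.U l := p.U_anti hll
      have hAA : Al (p.U l') y ⊆ Al (p.U l) y := Finset.filter_subset_filter _ hWW
      refine ih y l' h' ?_ ⟨y1, fun j hj => ?_, fun j hj => ?_, r3, fun i hi => ?_⟩ ?_
      · have g1 := Finset.card_le_card (hAA.trans y2)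
        rw [Finset.card_erase_of_mem hq] at g1
        omega
      · rcases r2 j (Finset.mem_univ j) with hh | hh
        · rw [hh.1]; exact hI.hl j hj
        · rw [hh.2.1]
          rcases hh.1 with h5 | h5
          · exact absurd h5 hj
          · exact h5
      · rcases r2 j (Finset.mem_univ j) with hh | hh
        · rw [hh.1, hh.2.1]
          apply hh.2.2
          unfold Prm.Mv at hj ⊢
          rw [hh.1] at hj
          exact hj
        · rw [hh.2.2, sub_self, abs_zero]
          exact gp_pos p.κ_pos (p.zz_nonneg _ _) _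
      · rw [y0 i (fun hh => by
          have g1 := (mem_Al.1 hh).2
          rw [hI.h4 i hi, hi] at g1
          exact absurd g1 (lt_irrefl _))]
        exact hI.h4 i hi
      · have k1 := (p.Tot_mono hAA y l' h').trans r4
        have k2 : S4 p.c p.κ w lam z (Al (p.U l') y) y l'
            ≤ S4 p.c p.κ w lam z (Al (p.U l) y) y l := by
          unfold S4
          exact Finset.sum_le_sum fun k _ => (T4_mono p.c p.κ (hw k) _ _ hAA _ _).trans
            (T4_anti p.c p.κ_pos (hw k) _ _ _ _ hl01)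
        linarith

/-- the abstract walk with linear tests -/
theorem walk_absK (p : Prm V J X) {T : ℝ} (hT : T ≤ p.κ) (hcol : ∀ i, ∑ j, p.c j i ^ 2 ≤ T)
    {w : Y → ℝ} (hw : ∀ k, 0 ≤ w k) (lam : Y → J → ℝ)
    (hsum : ∑ t, p.om t * exp (6 * p.ν * (T * (p.A t).card))
      + Fintype.card V * exp (-(p.μ * (p.κ / 2)) + 6 * p.μ * T)
      + Fintype.card J * (exp (-(p.lm * p.G)) * (2 * exp (p.κ * p.lm ^ 2 / 2 ^ p.K / 2)))
      + ∑ k, w k * exp (p.κ * (∑ j, lam k j ^ 2) / 2) < 1)
    {z : V → ℝ} (hz : ∀ i, |z i| ≤ 1) :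
    ∃ y : V → ℝ, (∀ i, |y i| ≤ 1) ∧ (∀ i, |z i| = 1 → y i = z i) ∧
      (∀ j, p.one j → ∃ l, |rs p.c y j - rs p.c z j| ≤ p.Hw j l) ∧
      (∀ j, ¬ p.one j → |rs p.c y j - rs p.c z j| ≤ p.Hw j p.K + p.G) ∧
      ∑ t, (if ∀ v ∈ p.A t, |y v| < 1 then p.om t * exp (p.ν * (p.κ / 2) * (p.A t).card) else 0)
        < 1 ∧
      ∑ k, w k * exp (∑ j, lam k j * (rs p.c y j - rs p.c z j)) < 1 := by
  have hU0 : p.U (fun _ => 0) = Finset.univ := by
    ext v
    rw [p.mem_U]
    simp only [Finset.mem_univ, iff_true]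
    unfold load
    simp only [pow_zero, one_mul]
    exact (hcol v).trans hT
  have hinit : p.Tot (Al (p.U (fun _ => 0)) z) z (fun _ => 0) (rs p.c z)
      + S4 p.c p.κ w lam z (Al (p.U (fun _ => 0)) z) z (fun _ => 0) < 1 := by
    refine lt_of_le_of_lt ?_ hsum
    refine add_le_add ?_ ?_
    · unfold Prm.Tot
      refine add_le_add (add_le_add ?_ ?_) ?_
      · refine Finset.sum_le_sum fun t _ => ?_
        unfold Prm.T1
        refine mul_le_mul_of_nonneg_left ?_ (p.hom t)
        rw [hU0]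
        have e1 : p.A t \ Finset.univ = ∅ := by
          ext v; simp
        rw [e1, Finset.card_empty, Nat.cast_zero, mul_zero, exp_zero, one_mul, Finset.inter_univ]
        refine (PP_init p.c p.κ_pos p.hν p.zz_nonneg p.zz_zero (p.a1_nonneg _)
          (fun j => ?_) _ z).trans ?_
        · have h1 := p.a1_le (t := t) (l := fun _ => 0) j
          rw [hU0, Finset.inter_univ, pow_zero, mul_one] at h1
          exact h1.trans (p.zz_zero j)
        · apply exp_le_exp.2
          exact mul_le_mul_of_nonneg_left (p.a1_sum_le hcol _) (by have := p.hν; positivity)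
      · have e2 : (Fintype.card V : ℝ) * exp (-(p.μ * (p.κ / 2)) + 6 * p.μ * T)
            = ∑ _v : V, exp (-(p.μ * (p.κ / 2)) + 6 * p.μ * T) := by
          simp
        rw [e2]
        refine Finset.sum_le_sum fun v _ => ?_
        unfold Prm.T2
        rw [exp_add]
        refine mul_le_mul_of_nonneg_left ?_ (exp_pos _).le
        refine (PP_init p.c p.κ_pos p.hμ.le p.zz_nonneg p.zz_zero (p.a2_nonneg _)
          (fun j => ?_) _ z).trans ?_
        · unfold Prm.a2
          split_ifs with h1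
          · rw [mul_zero]; exact zero_le_one
          · refine le_trans ?_ (p.h2 j v h1)
            have g1 : (1 : ℝ) ≤ 2 ^ p.K := one_le_pow₀ (by norm_num)
            have g2 : 0 ≤ p.μ * p.c j v ^ 2 := mul_nonneg p.hμ.le (sq_nonneg _)
            nlinarith
        · apply exp_le_exp.2
          exact mul_le_mul_of_nonneg_left (p.a2_sum_le hcol v) (by have := p.hμ; positivity)
      · have e3 : (Fintype.card J : ℝ) * (exp (-(p.lm * p.G))
              * (2 * exp (p.κ * p.lm ^ 2 / 2 ^ p.K / 2)))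
            = ∑ _j : J, exp (-(p.lm * p.G)) * (2 * exp (p.κ * p.lm ^ 2 / 2 ^ p.K / 2)) := by
          simp
        rw [e3]
        refine Finset.sum_le_sum fun S _ => ?_
        unfold Prm.T3
        refine mul_le_mul_of_nonneg_left ?_ (exp_pos _).le
        split_ifs with h1 h2
        · positivity
        · have h5 := QQ_start p.c p.κ_pos p.lm S (Al (p.U (fun _ => 0)) z) z (fun _ => 0)
            (rs p.c z) rfl
          have h6 : (2 : ℝ) ^ ((fun _ : J => 0) S) = 2 ^ p.K := by rw [h2]
          rw [h6] at h5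
          exact h5
        · exact le_refl _
    · unfold S4
      refine Finset.sum_le_sum fun k _ => ?_
      unfold T4
      refine mul_le_mul_of_nonneg_left (exp_le_exp.2 ?_) (hw k)
      have e1 : ∑ j, lam k j * (rs p.c z j - rs p.c z j) = 0 :=
        Finset.sum_eq_zero fun j _ => by ring
      rw [e1, zero_add]
      have h2 := JJ_le p.c p.κ_pos (Al (p.U (fun _ => 0)) z) (fun _ => 0) (lam k)
      have h3 : ∑ j, p.κ * lam k j ^ 2 / 2 ^ 0 = p.κ * ∑ j, lam k j ^ 2 := by
        rw [Finset.mul_sum]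
        exact Finset.sum_congr rfl fun j _ => by simp
      have h4 : JJ p.c p.κ (Al (p.U (fun _ => 0)) z) (fun _ => 0) (lam k)
          ≤ p.κ * ∑ j, lam k j ^ 2 := by
        rw [← h3]; exact h2
      linarith
  obtain ⟨y, l, h, hI, y2, y5⟩ := main_inductionK p hw lam z _ z (fun _ => 0) (rs p.c z) le_rfl
    ⟨hz, fun j _ => Nat.zero_le _,
      fun j _ => by rw [sub_self, abs_zero]; exact gp_pos p.κ_pos (p.zz_nonneg _ _) _,
      fun j => by rw [sub_self, abs_zero]; unfold Prm.Hw; simp,
      fun i _ => rfl⟩ hinit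
  have hS0 := S4_nonneg p.c p.κ hw lam z ∅ y l
  have hTot0 : 0 ≤ p.Tot ∅ y l h := by
    have g1 := p.s1_nonneg ∅ y l h
    have g2 := p.s2_nonneg ∅ y l h
    have g3 := p.s3_nonneg ∅ y l h
    unfold Prm.Tot
    linarith
  refine ⟨y, hI.hx, hI.h4, fun j hj => ⟨l j + 1, ?_⟩, fun j hj => ?_, ?_, ?_⟩
  · have g1 := hI.h1 j (Or.inl hj)
    have g2 := hI.h3 j
    have g3 := gp_nonneg p.κ (p.zz j (l j)) (l j)
    have e : rs p.c y j - rs p.c z j = (rs p.c y j - h j) + (h j - rs p.c z j) := by ring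
    rw [e]
    refine (abs_add_le _ _).trans ?_
    unfold Prm.Hw at g2 ⊢
    rw [Finset.sum_range_succ]
    linarith
  · have g2 := hI.h3 j
    have e : rs p.c y j - rs p.c z j = (rs p.c y j - h j) + (h j - rs p.c z j) := by ring
    rw [e]
    refine (abs_add_le _ _).trans ?_
    rcases (hI.hl j hj).lt_or_eq with h5 | h5
    · have g1 := hI.h1 j (Or.inr h5)
      have g3 := gp_nonneg p.κ (p.zz j (l j)) (l j)
      have g4 : p.Hw j (l j + 1) ≤ p.Hw j p.K := p.Hw_mono j h5
      have g5 : p.Hw j (l j + 1) = p.Hw j (l j) + 4 / 3 * gp p.κ (p.zz j (l j)) (l j) := by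
        unfold Prm.Hw; rw [Finset.sum_range_succ]
      have g6 : 0 ≤ p.G := by
        by_contra hneg
        push Not at hneg
        have h7 : (1 : ℝ) ≤ Fintype.card J := by
          have : 0 < Fintype.card J := Fintype.card_pos_iff.2 ⟨j⟩
          exact_mod_cast this
        have h8 : 1 ≤ exp (-(p.lm * p.G)) := one_le_exp (by nlinarith [p.hlm])
        have h9 : 1 ≤ exp (p.κ * p.lm ^ 2 / 2 ^ p.K / 2) := one_le_exp (by
          have := p.κ_pos; positivity)
        have h10 : 0 ≤ ∑ t, p.om t * exp (6 * p.ν * (T * (p.A t).card)) :=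
          Finset.sum_nonneg fun t _ => mul_nonneg (p.hom t) (exp_pos _).le
        have h11 : 0 ≤ (Fintype.card V : ℝ) * exp (-(p.μ * (p.κ / 2)) + 6 * p.μ * T) := by positivity
        have h12 : 1 ≤ exp (-(p.lm * p.G)) * (2 * exp (p.κ * p.lm ^ 2 / 2 ^ p.K / 2)) := by
          nlinarith
        have h13 : 1 ≤ (Fintype.card J : ℝ) * (exp (-(p.lm * p.G))
            * (2 * exp (p.κ * p.lm ^ 2 / 2 ^ p.K / 2))) := by nlinarith
        have h14 : 0 ≤ ∑ k, w k * exp (p.κ * (∑ j, lam k j ^ 2) / 2) :=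
          Finset.sum_nonneg fun k _ => mul_nonneg (hw k) (exp_pos _).le
        linarith
      linarith
    · have h6 : ∑ S, p.T3 S ∅ y l h < 1 := by
        refine lt_of_le_of_lt ?_ y5
        have g1 := p.s1_nonneg ∅ y l h
        have g3 := p.s2_nonneg ∅ y l h
        unfold Prm.Tot
        linarith
      have g1 := p.top_lt h6 hj h5
      rw [← h5]
      linarith
  · refine lt_of_le_of_lt ?_ y5
    have g2 := p.s2_nonneg ∅ y l h
    have g3 := p.s3_nonneg ∅ y l h
    have g1 : ∑ t, (if ∀ v ∈ p.A t, |y v| < 1 then p.om t * exp (p.ν * (p.κ / 2) * (p.A t).card)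
        else 0) ≤ ∑ t, p.T1 t ∅ y l h := by
      refine Finset.sum_le_sum fun t _ => ?_
      split_ifs with h5
      · unfold Prm.T1
        refine mul_le_mul_of_nonneg_left ?_ (p.hom t)
        have hnot : ∀ v ∈ p.A t, v ∉ p.U l := by
          intro v hv hvU
          have : v ∈ Al (p.U l) y := mem_Al.2 ⟨hvU, h5 v hv⟩
          rw [y2] at this
          exact absurd this (Finset.notMem_empty v)
        have e1 : p.A t \ p.U l = p.A t := by
          ext v
          simp only [Finset.mem_sdiff]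
          exact ⟨fun hh => hh.1, fun hh => ⟨hh, hnot v hh⟩⟩
        have e2 : p.a1 (p.A t ∩ p.U l) = fun _ => 0 := by
          have e3 : p.A t ∩ p.U l = ∅ := by
            ext v
            simp only [Finset.mem_inter, Finset.notMem_empty, iff_false]
            exact fun hh => hnot v hh.1 hh.2
          funext j
          rw [e3]
          unfold Prm.a1
          simp
        rw [e1, e2]
        have h6 := PP_zero p.c p.κ p.zz p.ν ∅ y l h
        have h7 := exp_pos (p.ν * (p.κ / 2) * (p.A t).card)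
        nlinarith
      · exact p.T1_nonneg t ∅ y l h
    unfold Prm.Tot
    linarith
  · refine lt_of_le_of_lt ?_ y5
    have g1 : ∑ k, w k * exp (∑ j, lam k j * (rs p.c y j - rs p.c z j))
        ≤ S4 p.c p.κ w lam z ∅ y l := by
      unfold S4
      refine Finset.sum_le_sum fun k _ => ?_
      unfold T4
      refine mul_le_mul_of_nonneg_left (exp_le_exp.2 ?_) (hw k)
      have := JJ_nonneg p.c p.κ ∅ l (lam k)
      linarith
    linarith

end Pool.Agent.Helper98.BK
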