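import Pool.Agent.Helper78.BO.Walk
import Pool.Agent.Helper98.BK.WK

/-!
The walk of helper78 with identity rows: additional control of arbitrary linear functionals.
-/

namespace Pool.Agent.Helper98.BK

open Real Pool.Agent.Helper22.LT Pool.Agent.Helper78.BO
open scoped Classical

variable {V J X I : Type*} [Fintype V] [Fintype J] [Fintype X] [Fintype I]

/-- split matrix with identity rows -/
noncomputable def splI (c : J → V → ℝ) (al : ℝ) : (J ⊕ J) ⊕ V → V → ℝ
  | Sum.inl r, i => spl c al r i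
  | Sum.inr u, i => if u = i then 1 else 0

theorem col_splI (c : J → V → ℝ) (al : ℝ) (i : V) :
    ∑ r, splI c al r i ^ 2 = ∑ j, c j i ^ 2 + 1 := by
  rw [Fintype.sum_sum_type]
  have e1 : ∑ r, splI c al (Sum.inl r) i ^ 2 = ∑ j, c j i ^ 2 := col_spl c al i
  have e2 : ∑ u : V, splI c al (Sum.inr u) i ^ 2 = 1 := by
    rw [Finset.sum_eq_single i]
    · simp [splI]
    · intro u _ hu
      simp [splI, hu]
    · intro h
      exact absurd (Finset.mem_univ i) h
  rw [e1, e2]

omit [Fintype J] in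
theorem rs_splI (c : J → V → ℝ) (al : ℝ) (x : V → ℝ) (u : V) :
    rs (splI c al) x (Sum.inr u) = x u := by
  unfold rs
  rw [Finset.sum_eq_single u]
  · simp [splI]
  · intro i _ hi
    simp [splI, Ne.symm hi]
  · intro h
    exact absurd (Finset.mem_univ u) h

theorem walkK (c : J → V → ℝ) {T κ ν al L : ℝ} (hcol : ∀ i, ∑ j, c j i ^ 2 + 1 ≤ T)
    (hc : ∀ j i, c j i ^ 2 ≤ 1) (hκ1 : 1 ≤ κ) (hκ : 24 * T ≤ κ) (hT : 0 ≤ T) (hν : 0 ≤ ν)
    (hν1 : ν ≤ 1) (hal : 0 ≤ al) (hL : 1 ≤ L)
    (hN : 8 * ((Fintype.card V : ℝ) + Fintype.card J + Fintype.card I) ≤ exp L)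
    (haL : 8 * al * L ^ 2 ≤ κ)
    (A : X → Finset V) (hA : ∀ t, Sepd c al (A t)) (om : X → ℝ) (hom : ∀ t, 0 ≤ om t)
    (hsum : ∑ t, om t * exp (-(ν * (κ / 2 - 6 * T) * (A t).card)) ≤ 1 / 4)
    (ρ : I → V → ℝ) (hρ : ∀ k, ∑ u, ρ k u ^ 2 ≤ 1)
    {z : V → ℝ} (hz : ∀ i, |z i| ≤ 1) :
    ∃ y : V → ℝ, (∀ i, |y i| ≤ 1) ∧ (∀ i, |z i| = 1 → y i = z i) ∧
      (∀ j, |∑ i, c j i * (y i - z i)| ≤ 130 * √κ * (1 + √ν * (1 + log (1 + ν * κ)))) ∧
      (∀ k, |∑ i, ρ k i * (y i - z i)| ≤ 2 * √(κ * L)) ∧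
      ∑ t, (if ∀ v ∈ A t, |y v| < 1 then om t else 0) < 1 := by
  have hκ0 : 0 < κ := lt_of_lt_of_le one_pos hκ1
  have hL0 : 0 < L := lt_of_lt_of_le one_pos hL
  obtain ⟨K0, hK1, hK2⟩ := exists_nat_pow_near hL (show (1 : ℝ) < 2 by norm_num)
  set K : ℕ := K0 + 1 with hK
  have hKL : L ≤ 2 ^ K := hK2.le
  have hKL2 : (2 : ℝ) ^ K ≤ 2 * L := by rw [hK, pow_succ]; linarith
  set μ : ℝ := 4 * L / κ with hμ
  have hμ0 : 0 < μ := by positivity
  have hμκ : μ * κ = 4 * L := by rw [hμ]; field_simp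
  have hsκ : 0 < √κ := sqrt_pos.2 hκ0
  have hsκ2 : √κ ^ 2 = κ := sq_sqrt hκ0.le
  let p : Prm V ((J ⊕ J) ⊕ V) X :=
    { c := splI c al
      one := fun r => match r with
        | Sum.inl r => r.isLeft = true
        | Sum.inr _ => True
      κ := κ
      ν := ν
      μ := μ
      lm := L / √κ
      G := 2 * √κ
      K := K
      A := A
      om := fun t => om t * exp (-(ν * (κ / 2) * (A t).card))
      hκ := hκ1
      hν := hν
      hν1 := hν1
      hμ := hμ0
      hlm := by positivity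
      hc := fun r i => by
        rcases r with r | u
        · exact spl_sq_le c al zero_le_one hc r i
        · simp only [splI]
          split_ifs <;> norm_num
      h2 := by
        intro r i hr
        rcases r with (j | j) | u
        · exact absurd rfl hr
        · have h1 : spl c al (Sum.inr j) i ^ 2 ≤ al := by
            simp only [spl]
            split_ifs with h
            · rw [zero_pow (by norm_num)]; exact hal
            · exact not_lt.1 h
          have h2 : μ * 2 ^ K * al ≤ 1 := by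
            calc μ * 2 ^ K * al ≤ μ * (2 * L) * al := by
                  apply mul_le_mul_of_nonneg_right _ hal
                  exact mul_le_mul_of_nonneg_left hKL2 hμ0.le
              _ = 8 * al * L ^ 2 / κ := by rw [hμ]; ring
              _ ≤ 1 := by rw [div_le_one hκ0]; exact haL
          refine le_trans ?_ h2
          exact mul_le_mul_of_nonneg_left h1 (by positivity)
        · exact absurd trivial hr
      hA := by
        intro t r hr u hu v hv huv
        rcases r with (j | j) | w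
        · have h1 := hA t u hu v hv huv j
          simp only [splI, spl]
          by_cases h2 : al < c j u ^ 2
          · right
            rw [if_neg (fun h3 => h1 ⟨h2, h3⟩)]
          · left
            rw [if_neg h2]
        · exact absurd hr (by simp)
        · simp only [splI]
          by_cases h2 : w = u
          · right
            rw [if_neg (fun h3 => huv (h2.symm.trans h3))]
          · left
            rw [if_neg h2]
      hom := fun t => mul_nonneg (hom t) (exp_pos _).le }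
  have hcol' : ∀ i, ∑ r, p.c r i ^ 2 ≤ T := fun i => by
    change ∑ r, splI c al r i ^ 2 ≤ T
    rw [col_splI]; exact hcol i
  have hTκ : T ≤ p.κ := by
    change T ≤ κ
    linarith
  -- the linear tests
  set θ : ℝ := √(L / κ) with hθ
  have hθ2 : θ ^ 2 = L / κ := sq_sqrt (by positivity)
  have hθ0 : 0 < θ := sqrt_pos.2 (by positivity)
  set lam : (I ⊕ I) → ((J ⊕ J) ⊕ V) → ℝ := fun k r => match k, r with
    | Sum.inl k, Sum.inr u => θ * ρ k u
    | Sum.inr k, Sum.inr u => -(θ * ρ k u)
    | _, Sum.inl _ => 0 with hlam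
  have hlam2 : ∀ k, κ * (∑ j, lam k j ^ 2) / 2 ≤ L / 2 := by
    intro k
    have h1 : ∑ j, lam k j ^ 2 ≤ θ ^ 2 := by
      rw [Fintype.sum_sum_type]
      have e0 : ∑ r : J ⊕ J, lam k (Sum.inl r) ^ 2 = 0 := by
        apply Finset.sum_eq_zero
        intro r _
        rcases k with k | k <;> simp [hlam]
      rw [e0, zero_add]
      rcases k with k | k
      · have e1 : ∑ u : V, lam (Sum.inl k) (Sum.inr u) ^ 2 = θ ^ 2 * ∑ u, ρ k u ^ 2 := by
          rw [Finset.mul_sum]
          exact Finset.sum_congr rfl fun u _ => by simp only [hlam]; ring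
        rw [e1]
        have := mul_le_mul_of_nonneg_left (hρ k) (sq_nonneg θ)
        linarith
      · have e1 : ∑ u : V, lam (Sum.inr k) (Sum.inr u) ^ 2 = θ ^ 2 * ∑ u, ρ k u ^ 2 := by
          rw [Finset.mul_sum]
          exact Finset.sum_congr rfl fun u _ => by simp only [hlam]; ring
        rw [e1]
        have := mul_le_mul_of_nonneg_left (hρ k) (sq_nonneg θ)
        linarith
    have h2 := mul_le_mul_of_nonneg_left h1 hκ0.le
    rw [hθ2] at h2
    have h3 : κ * (L / κ) = L := by field_simp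
    linarith
  have hsum' : ∑ t, p.om t * exp (6 * p.ν * (T * (p.A t).card))
      + Fintype.card V * exp (-(p.μ * (p.κ / 2)) + 6 * p.μ * T)
      + Fintype.card ((J ⊕ J) ⊕ V) * (exp (-(p.lm * p.G)) * (2 * exp (p.κ * p.lm ^ 2 / 2 ^ p.K / 2)))
      + ∑ k, (fun _ : I ⊕ I => exp (-(2 * L))) k * exp (p.κ * (∑ j, lam k j ^ 2) / 2) < 1 := by
    change ∑ t, om t * exp (-(ν * (κ / 2) * (A t).card)) * exp (6 * ν * (T * (A t).card))
      + Fintype.card V * exp (-(μ * (κ / 2)) + 6 * μ * T)
      + Fintype.card ((J ⊕ J) ⊕ V) * (exp (-(L / √κ * (2 * √κ)))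
        * (2 * exp (κ * (L / √κ) ^ 2 / 2 ^ K / 2)))
      + ∑ k, exp (-(2 * L)) * exp (κ * (∑ j, lam k j ^ 2) / 2) < 1
    have p1 : ∑ t, om t * exp (-(ν * (κ / 2) * (A t).card)) * exp (6 * ν * (T * (A t).card))
        ≤ 1 / 4 := by
      refine le_trans (le_of_eq ?_) hsum
      refine Finset.sum_congr rfl fun t _ => ?_
      rw [mul_assoc, ← exp_add]
      congr 2
      ring
    have hV0 : (0 : ℝ) ≤ Fintype.card V := Nat.cast_nonneg _
    have hJ0 : (0 : ℝ) ≤ Fintype.card J := Nat.cast_nonneg _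
    have hI0 : (0 : ℝ) ≤ Fintype.card I := Nat.cast_nonneg _
    set x : ℝ := exp (-(L / 2)) with hx
    have hx0 : 0 < x := exp_pos _
    have hx1 : x ≤ 2 / 3 := by
      have h1 : exp (-(L / 2)) ≤ exp (-(1 / 2)) := exp_le_exp.2 (by linarith)
      have h2 : 1 / 2 + 1 ≤ exp (1 / 2 : ℝ) := add_one_le_exp _
      have h3 : exp (1 / 2 : ℝ) * exp (-(1 / 2)) = 1 := by rw [← exp_add]; simp
      have h4 := exp_pos (-(1 / 2) : ℝ)
      rw [hx]
      nlinarith
    set e : ℝ := exp (-L) with he
    have he0 : 0 < e := exp_pos _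
    have hee : exp L * e = 1 := by rw [he, ← exp_add]; simp
    have p2 : (Fintype.card V : ℝ) * exp (-(μ * (κ / 2)) + 6 * μ * T) ≤ Fintype.card V * e := by
      apply mul_le_mul_of_nonneg_left _ hV0
      apply exp_le_exp.2
      have h1 : 6 * μ * T ≤ μ * (κ / 4) := by
        have := mul_le_mul_of_nonneg_left hκ hμ0.le
        linarith
      linarith
    have h32 : exp (-(2 * L)) * exp (L / 2) = e * x := by
      rw [he, hx, ← exp_add, ← exp_add]
      congr 1
      ring
    have p3 : (Fintype.card ((J ⊕ J) ⊕ V) : ℝ) * (exp (-(L / √κ * (2 * √κ)))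
        * (2 * exp (κ * (L / √κ) ^ 2 / 2 ^ K / 2)))
        ≤ (2 * Fintype.card J + Fintype.card V) * (2 * (e * x)) := by
      have e1 : L / √κ * (2 * √κ) = 2 * L := by field_simp
      have e2 : κ * (L / √κ) ^ 2 / 2 ^ K / 2 ≤ L / 2 := by
        have h1 : κ * (L / √κ) ^ 2 = L ^ 2 := by
          rw [div_pow, hsκ2]; field_simp
        rw [h1]
        apply div_le_div_of_nonneg_right _ (by norm_num : (0 : ℝ) ≤ 2)
        rw [div_le_iff₀ (by positivity)]
        nlinarith
      rw [e1]
      have e3 : exp (κ * (L / √κ) ^ 2 / 2 ^ K / 2) ≤ exp (L / 2) := exp_le_exp.2 e2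
      have e4 : (Fintype.card ((J ⊕ J) ⊕ V) : ℝ) = 2 * Fintype.card J + Fintype.card V := by
        rw [Fintype.card_sum, Fintype.card_sum]; push_cast; ring
      rw [e4]
      apply mul_le_mul_of_nonneg_left _ (by positivity)
      rw [← h32]
      have h5 := exp_pos (-(2 * L))
      nlinarith
    have p4 : ∑ k, exp (-(2 * L)) * exp (κ * (∑ j, lam k j ^ 2) / 2)
        ≤ 2 * Fintype.card I * (e * x) := by
      calc ∑ k, exp (-(2 * L)) * exp (κ * (∑ j, lam k j ^ 2) / 2)
          ≤ ∑ _k : I ⊕ I, exp (-(2 * L)) * exp (L / 2) := by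
            refine Finset.sum_le_sum fun k _ => ?_
            apply mul_le_mul_of_nonneg_left (exp_le_exp.2 (hlam2 k)) (exp_pos _).le
        _ = 2 * Fintype.card I * (e * x) := by
            rw [h32, Finset.sum_const, nsmul_eq_mul, Finset.card_univ, Fintype.card_sum]
            push_cast
            ring
    have q : e * x ≤ e * (2 / 3) := mul_le_mul_of_nonneg_left hx1 he0.le
    have p3' : (2 * (Fintype.card J : ℝ) + Fintype.card V) * (2 * (e * x))
        ≤ (2 * Fintype.card J + Fintype.card V) * (2 * (e * (2 / 3))) :=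
      mul_le_mul_of_nonneg_left (by linarith) (by positivity)
    have p4' : 2 * (Fintype.card I : ℝ) * (e * x) ≤ 2 * Fintype.card I * (e * (2 / 3)) :=
      mul_le_mul_of_nonneg_left q (by positivity)
    have hN' := mul_le_mul_of_nonneg_right hN he0.le
    rw [hee] at hN'
    have hVe : 0 ≤ (Fintype.card V : ℝ) * e := by positivity
    have hJe : 0 ≤ (Fintype.card J : ℝ) * e := by positivity
    have hIe : 0 ≤ (Fintype.card I : ℝ) * e := by positivity
    nlinarith
  obtain ⟨y, y1, y2, y3, y4, y5, y6⟩ := walk_absK p hTκ hcol'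
    (w := fun _ : I ⊕ I => exp (-(2 * L))) (fun _ => (exp_pos _).le) lam hsum' hz
  refine ⟨y, y1, y2, fun j => ?_, fun k => ?_, ?_⟩
  · have e1 : ∑ i, c j i * (y i - z i) = rs c y j - rs c z j := by
      rw [← rs_sub]; rfl
    rw [e1, ← rs_spl c al y j, ← rs_spl c al z j]
    obtain ⟨l, hl⟩ := y3 (Sum.inl (Sum.inl j)) rfl
    have h1 : |rs (spl c al) y (Sum.inl j) - rs (spl c al) z (Sum.inl j)|
        ≤ 8 * √κ * (7 + √(2 * ν) * lg (ν * κ) + 7 / 2 * (1 + √ν)) :=
      hl.trans (p.Hw_one (j := Sum.inl (Sum.inl j)) rfl l)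
    have hnot : ¬ p.one (Sum.inl (Sum.inr j)) := fun hh => absurd hh (by simp [p])
    have h2 : |rs (spl c al) y (Sum.inr j) - rs (spl c al) z (Sum.inr j)|
        ≤ 40 * √κ + 2 * √κ :=
      (y4 (Sum.inl (Sum.inr j)) hnot).trans (add_le_add (p.Hw_two hnot p.K) (le_refl _))
    have h3 : lg (ν * κ) ≤ 3 / 2 * log (1 + ν * κ) := lg_le (by positivity)
    have h4 : √(2 * ν) ≤ 3 / 2 * √ν := by
      rw [sqrt_mul (by norm_num)]
      apply mul_le_mul_of_nonneg_right _ (sqrt_nonneg _)
      rw [sqrt_le_left (by norm_num)]; norm_num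
    have h5 : √(2 * ν) * lg (ν * κ) ≤ 3 / 2 * √ν * (3 / 2 * log (1 + ν * κ)) :=
      mul_le_mul h4 h3 (lg_nonneg _) (by positivity)
    have hlog : 0 ≤ log (1 + ν * κ) := log_nonneg (by nlinarith)
    have hsν : 0 ≤ √ν := sqrt_nonneg _
    have e2 : rs (spl c al) y (Sum.inl j) + rs (spl c al) y (Sum.inr j)
        - (rs (spl c al) z (Sum.inl j) + rs (spl c al) z (Sum.inr j))
        = (rs (spl c al) y (Sum.inl j) - rs (spl c al) z (Sum.inl j))
          + (rs (spl c al) y (Sum.inr j) - rs (spl c al) z (Sum.inr j)) := by ring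
    rw [e2]
    refine (abs_add_le _ _).trans ((add_le_add h1 h2).trans ?_)
    have h6 : 8 * √κ * (7 + √(2 * ν) * lg (ν * κ) + 7 / 2 * (1 + √ν))
        ≤ 8 * √κ * (7 + 3 / 2 * √ν * (3 / 2 * log (1 + ν * κ)) + 7 / 2 * (1 + √ν)) := by
      apply mul_le_mul_of_nonneg_left _ (by positivity)
      linarith
    have h7 : 8 * √κ * (7 + 3 / 2 * √ν * (3 / 2 * log (1 + ν * κ)) + 7 / 2 * (1 + √ν))
        + (40 * √κ + 2 * √κ)
        = √κ * (126 + √ν * (28 + 18 * log (1 + ν * κ))) := by ring
    have h8 : √κ * (126 + √ν * (28 + 18 * log (1 + ν * κ)))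
        ≤ √κ * (130 * (1 + √ν * (1 + log (1 + ν * κ)))) := by
      apply mul_le_mul_of_nonneg_left _ hsκ.le
      nlinarith [mul_nonneg hsν hlog]
    linarith
  · -- linear functionals
    have hkey : ∀ (k' : I ⊕ I),
        θ * ∑ u, (Sum.elim ρ (fun k u => -ρ k u) k' u) * (y u - z u) < 2 * L := by
      intro k'
      have h1 : exp (-(2 * L)) * exp (∑ j, lam k' j * (rs p.c y j - rs p.c z j)) < 1 := by
        refine lt_of_le_of_lt ?_ y6
        exact Finset.single_le_sum
          (f := fun k => exp (-(2 * L)) * exp (∑ j, lam k j * (rs p.c y j - rs p.c z j)))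
          (fun k _ => (mul_pos (exp_pos _) (exp_pos _)).le) (Finset.mem_univ k')
      rw [← exp_add, exp_lt_one_iff] at h1
      have h2 : ∑ j, lam k' j * (rs p.c y j - rs p.c z j)
          = θ * ∑ u, (Sum.elim ρ (fun k u => -ρ k u) k' u) * (y u - z u) := by
        rw [Fintype.sum_sum_type]
        have e0 : ∑ r : J ⊕ J, lam k' (Sum.inl r) * (rs p.c y (Sum.inl r) - rs p.c z (Sum.inl r))
            = 0 := by
          apply Finset.sum_eq_zero
          intro r _
          rcases k' with k | k <;> simp [hlam]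
        rw [e0, zero_add, Finset.mul_sum]
        refine Finset.sum_congr rfl fun u _ => ?_
        have e1 : rs p.c y (Sum.inr u) = y u := rs_splI c al y u
        have e2 : rs p.c z (Sum.inr u) = z u := rs_splI c al z u
        rw [e1, e2]
        rcases k' with k | k
        · simp only [hlam, Sum.elim_inl]; ring
        · simp only [hlam, Sum.elim_inr]; ring
      linarith
    have hb : 2 * L / θ = 2 * √(κ * L) := by
      have h1 : √(κ * L) * θ = L := by
        rw [hθ, ← sqrt_mul (by positivity)]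
        have : κ * L * (L / κ) = L ^ 2 := by field_simp
        rw [this, sqrt_sq hL0.le]
      rw [div_eq_iff hθ0.ne', mul_assoc, h1]
    rw [← hb, le_div_iff₀ hθ0]
    have a1 := hkey (Sum.inl k)
    have a2 := hkey (Sum.inr k)
    simp only [Sum.elim_inl, Sum.elim_inr] at a1 a2
    have e3 : ∑ u, -ρ k u * (y u - z u) = -∑ u, ρ k u * (y u - z u) := by
      rw [← Finset.sum_neg_distrib]
      exact Finset.sum_congr rfl fun u _ => by ring
    rw [e3] at a2
    rcases le_total 0 (∑ u, ρ k u * (y u - z u)) with h | h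
    · rw [abs_of_nonneg h]; linarith
    · rw [abs_of_nonpos h]; linarith
  · refine lt_of_le_of_lt (le_of_eq ?_) y5
    refine Finset.sum_congr rfl fun t _ => ?_
    change (if ∀ v ∈ A t, |y v| < 1 then om t else 0)
      = if ∀ v ∈ A t, |y v| < 1 then
        om t * exp (-(ν * (κ / 2) * (A t).card)) * exp (ν * (κ / 2) * (A t).card) else 0
    split_ifs
    · rw [mul_assoc, ← exp_add]
      simp
    · rfl

end Pool.Agent.Helper98.BK
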