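import Pool.Agent.Helper78.BO.RTP
import Pool.Agent.Helper98.BO.StK
import Pool.Agent.Helper98.BK.TestsK
import Pool.Agent.Helper98.BK.FLPK
import Pool.Agent.Helper53.BO.Count
import Pool.Agent.Helper53.BO.Deg

/-!
Round theorem of THEOREM K.
-/

namespace Pool.Agent.Helper98.BK

open Pool.Agent.Helper50.BO Pool.Agent.Helper98.BO Pool.Agent.Helper78.BO Real
open Pool.Agent.Helper60.BO (gs)

/-- numbers -/
theorem numK {B N l8 T Λ T1 a b : ℝ} {nc : ℕ} (hB : 1 ≤ B) (hN : 3 ≤ N) (hl8 : l8 = log (8 * N))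
    (hl83 : 3 ≤ l8) (hTB : T ≤ B) (hT : 1 ≤ T) (hT1 : T1 = max (T + 1) Λ) (hΛ1 : 1 ≤ Λ)
    (hΛL : Λ ≤ 300 * LL B N) (hnc : 4 * (nc : ℝ) ≤ exp Λ)
    (ha : a ≤ 2 * √(8 * (nc + 1) * l8)) (hb : b ≤ 2 * √(24 * T1 * l8)) :
    a + b ≤ exp (3000000 * LL B N) := by
  obtain ⟨n1, n2, n3, n4⟩ := num_N hN
  rw [← hl8] at n1 n3 n4
  have hLL1 : 1 ≤ LL B N := LL_one hB hN
  have hl0 : 0 < l8 := by linarith
  have hlogB : 0 ≤ log B := log_nonneg hB
  have hlogl : 0 ≤ log l8 := log_nonneg (by linarith)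
  have hLL : LL B N = 1 + log B + log (log N) := rfl
  have hl8L : log l8 ≤ 11 / 10 * LL B N := by rw [hLL]; linarith
  have hBL : log B ≤ LL B N := by rw [hLL]; linarith
  set L := LL B N with hL
  have h1 : l8 ≤ exp (2 * L) := by
    rw [← log_le_iff_le_exp hl0]; linarith
  have h2 : B ≤ exp L := by
    rw [← log_le_iff_le_exp (by linarith)]; exact hBL
  have hnc0 : (0 : ℝ) ≤ nc := Nat.cast_nonneg _
  have hsq : ∀ x : ℝ, 1 ≤ x → √x ≤ x := by
    intro x hx
    rw [sqrt_le_left (by linarith)]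
    nlinarith
  have hE : exp Λ ≤ exp (300 * L) := exp_le_exp.2 hΛL
  have hΛE : Λ ≤ exp (300 * L) := by
    have := add_one_le_exp Λ
    linarith
  have hB2 : B ≤ exp (300 * L) := h2.trans (exp_le_exp.2 (by linarith))
  have h31 : 1 ≤ exp (300 * L) := one_le_exp (by linarith)
  have hT1b : T1 ≤ 2 * exp (300 * L) := by
    rw [hT1]
    apply max_le <;> linarith
  have hT11 : 1 ≤ T1 := by
    rw [hT1]; exact le_max_of_le_right hΛ1
  have a1 : a ≤ 20 * exp (300 * L) * exp (2 * L) := by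
    refine ha.trans ?_
    have f1 : √(8 * (nc + 1) * l8) ≤ 8 * (nc + 1) * l8 := hsq _ (by nlinarith)
    have f2 : 8 * ((nc : ℝ) + 1) ≤ 10 * exp (300 * L) := by linarith
    have f3 : 8 * ((nc : ℝ) + 1) * l8 ≤ 10 * exp (300 * L) * exp (2 * L) :=
      mul_le_mul f2 h1 hl0.le (by positivity)
    linarith
  have b1 : b ≤ 96 * exp (300 * L) * exp (2 * L) := by
    refine hb.trans ?_
    have f1 : √(24 * T1 * l8) ≤ 24 * T1 * l8 := hsq _ (by nlinarith)
    have f2 : 24 * T1 ≤ 48 * exp (300 * L) := by linarith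
    have f3 : 24 * T1 * l8 ≤ 48 * exp (300 * L) * exp (2 * L) :=
      mul_le_mul f2 h1 hl0.le (by positivity)
    linarith
  have h5 : exp (300 * L) * exp (2 * L) = exp (302 * L) := by
    rw [← exp_add]; congr 1; ring
  have h6 : (116 : ℝ) ≤ exp (116 * L) := by
    have := add_one_le_exp (116 * L)
    linarith
  have h7 : a + b ≤ 116 * exp (302 * L) := by
    rw [← h5]; linarith
  refine h7.trans ?_
  have h8 : 116 * exp (302 * L) ≤ exp (116 * L) * exp (302 * L) :=
    mul_le_mul_of_nonneg_right h6 (exp_pos _).le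
  refine h8.trans ?_
  rw [← exp_add]
  exact exp_le_exp.2 (by linarith)

theorem rtk_of (h1 : STcount) (h2 : STgreedy) (h3 : STdeg) : RTK 3000000 := by
  classical
  intro V J I _ _ _ c rr z B N T hT1' hTB hN hc hcol hrow hz
  have hB : 1 ≤ B := hT1'.trans hTB
  have hT : 0 ≤ T := by linarith
  have hB0 : 0 < B := by linarith
  have hcI : (0 : ℝ) ≤ Fintype.card I := Nat.cast_nonneg _
  set nr : I → ℝ := fun k => √(∑ u, rr k u ^ 2) with hnr
  have hnr0 : ∀ k, 0 ≤ nr k := fun k => sqrt_nonneg _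
  have hnr2 : ∀ k, nr k ^ 2 = ∑ u, rr k u ^ 2 := fun k =>
    sq_sqrt (Finset.sum_nonneg fun u _ => sq_nonneg _)
  set ρ : I → V → ℝ := fun k u => rr k u / nr k with hρdef
  have hρ : ∀ k, ∑ u, ρ k u ^ 2 ≤ 1 := by
    intro k
    have e1 : ∑ u, ρ k u ^ 2 = nr k ^ 2 / nr k ^ 2 := by
      rw [hnr2 k, Finset.sum_div]
      refine Finset.sum_congr rfl fun u _ => ?_
      simp only [hρdef]
      rw [div_pow, hnr2 k]
    rw [e1]
    exact div_self_le_one _
  have hrr : ∀ k (f : V → ℝ), ∑ u, rr k u * f u = nr k * ∑ u, ρ k u * f u := by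
    intro k f
    rw [Finset.mul_sum]
    refine Finset.sum_congr rfl fun u _ => ?_
    by_cases h0 : nr k = 0
    · have h5 : rr k u = 0 := by
        have h6 : ∑ u, rr k u ^ 2 = 0 := by rw [← hnr2 k, h0]; norm_num
        have h7 := (Finset.sum_eq_zero_iff_of_nonneg (fun u _ => sq_nonneg (rr k u))).1 h6 u
          (Finset.mem_univ u)
        exact pow_eq_zero_iff (two_ne_zero) |>.1 h7
      rw [h5, h0]; ring
    · simp only [hρdef]
      field_simp
  have hcV : (0 : ℝ) ≤ Fintype.card V := Nat.cast_nonneg _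
  have hcJ : (0 : ℝ) ≤ Fintype.card J := Nat.cast_nonneg _
  have hN3 : 3 ≤ N := by linarith
  have hVN : (Fintype.card V : ℝ) ≤ N := by linarith
  set l8 := log (8 * N) with hl8
  set P := 1 + B ^ 2 * l8 ^ 4 with hP
  set al := 1 / (32 * P ^ 2 * l8 ^ 3) with hal
  set D := 1 + B ^ 2 / al ^ 2 with hD
  set Λ := 1 + 6 * log D with hΛ
  set k := ⌈l8⌉₊ with hk
  obtain ⟨hl83, hP1, hal0, hal1, hD1, hΛ1, hk1, hk2, h64, hexp, hΛL, h8P⟩ :=
    num_parP hB hN3 hl8 hP hal hD hΛ hk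
  have hl0 : 0 < l8 := by linarith
  have hD0 : 0 < D := by linarith
  have haw0 : 0 < 1 / l8 ^ 2 := by positivity
  -- degrees
  have hdeg : ∀ α : ℝ, 0 < α → ∀ a, (Set.ncard {b | Ad c α a b} : ℝ) ≤ B ^ 2 / α ^ 2 := by
    intro α hα a
    have hs : (√B) ^ 2 = B := sq_sqrt hB0.le
    have hsB : 0 < √B := sqrt_pos.2 hB0
    have hsB2 : ∀ x : ℝ, (x / √B) ^ 2 = x ^ 2 / B := fun x => by rw [div_pow, hs]
    have g1 := h3 V J (fun j i => c j i / √B) (α / B) 1 (by positivity) zero_le_one (fun i => by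
      simp only [hsB2]
      rw [← Finset.sum_div, div_le_one hB0]
      exact (hcol i).trans hTB) (fun j => by
      simp only [hsB2]
      rw [← Finset.sum_div, div_le_one hB0]
      exact hrow j) a
    have g2 : {b | Ad (fun j i => c j i / √B) (α / B) a b} = {b | Ad c α a b} := by
      ext b
      simp only [Set.mem_ofPred_eq, Ad]
      refine exists_congr fun j => ?_
      rw [hsB2, hsB2, div_lt_div_iff_of_pos_right hB0, div_lt_div_iff_of_pos_right hB0]
    rw [g2] at g1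
    refine g1.trans (le_of_eq ?_)
    rw [div_pow, one_div_div]
  set dw := ⌊B ^ 2 / (1 / l8 ^ 2) ^ 2⌋₊ with hdw
  set ds := ⌊B ^ 2 / al ^ 2⌋₊ with hds
  have hdwP : (1 + dw : ℝ) ≤ P := by
    have a1 : (dw : ℝ) ≤ B ^ 2 / (1 / l8 ^ 2) ^ 2 := Nat.floor_le (by positivity)
    have a2 : B ^ 2 / (1 / l8 ^ 2) ^ 2 = B ^ 2 * l8 ^ 4 := by field_simp
    rw [hP]; linarith
  have hdsD : (1 + ds : ℝ) ≤ D := by
    have a1 : (ds : ℝ) ≤ B ^ 2 / al ^ 2 := Nat.floor_le (by positivity)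
    rw [hD]; linarith
  have hd1 : ∀ a, Set.ncard {b | Ad c (1 / l8 ^ 2) a b} ≤ dw := fun a =>
    Nat.le_floor (hdeg _ haw0 a)
  have hd2 : ∀ a, Set.ncard {b | Ad c al a b} ≤ ds := fun a => Nat.le_floor (hdeg _ hal0 a)
  obtain ⟨W, hW1, hW2, hW3⟩ := h1 V (Ad c (1 / l8 ^ 2)) (Ad c al) dw ds k (Ad_symm c _)
    (Ad_symm c _) (Ad_mono c hal1) hd1 hd2
  -- parameters of the walk
  set T1 := max (T + 1) Λ with hT1
  have hT10 : 0 < T1 := lt_max_of_lt_right (by linarith)
  have hT1Λ : Λ ≤ T1 := le_max_right _ _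
  have hβ : Λ / T1 * (24 * T1 / 2 - 6 * T1) = 6 * Λ := by field_simp; ring
  have hWexp : (W.card : ℝ) * exp (-(Λ / T1 * (24 * T1 / 2 - 6 * T1) * (k + 1))) ≤ 1 / 8 := by
    rw [hβ]
    have a1 : (W.card : ℝ) ≤ N * D ^ (6 * k) := by
      have b1 : (W.card : ℝ) ≤ Fintype.card V * ((1 + ds : ℝ) ^ 3) ^ (2 * k) := by
        exact_mod_cast hW1
      refine b1.trans ?_
      rw [← pow_mul, show 3 * (2 * k) = 6 * k by ring]
      have b2 : (1 + ds : ℝ) ^ (6 * k) ≤ D ^ (6 * k) := pow_le_pow_left₀ (by positivity) hdsD _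
      exact mul_le_mul hVN b2 (by positivity) (by linarith)
    have a2 : exp (-(6 * Λ * (k + 1))) ≤ 1 / (8 * N) / D ^ (6 * k) := by
      have b1 : exp (-(6 * Λ * (k + 1))) ≤ exp (-(l8 + (6 * k) * log D)) := by
        apply exp_le_exp.2
        have c2 : 0 ≤ log D := log_nonneg hD1
        have c3 : (0 : ℝ) ≤ k := Nat.cast_nonneg _
        have c4 : Λ * (k + 1) ≤ 6 * Λ * (k + 1) := by nlinarith
        have c5 : l8 + 6 * k * log D ≤ Λ * (k + 1) := by
          rw [hΛ]; nlinarith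
        linarith
      refine b1.trans (le_of_eq ?_)
      rw [exp_neg, exp_add, hl8, exp_log (by linarith)]
      have b2 : exp (6 * k * log D) = D ^ (6 * k) := by
        rw [show (6 : ℝ) * k * log D = ((6 * k : ℕ) : ℝ) * log D by push_cast; ring, exp_nat_mul,
          exp_log hD0]
      rw [b2]
      field_simp
    calc (W.card : ℝ) * exp (-(6 * Λ * (k + 1)))
        ≤ N * D ^ (6 * k) * (1 / (8 * N) / D ^ (6 * k)) :=
          mul_le_mul a1 a2 (exp_pos _).le (by positivity)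
      _ = 1 / 8 := by field_simp
  obtain ⟨y, y1, y1', y2, y2', y3, y4⟩ := testsK c z (B := B) (N := N) (T := T1) (κ := 24 * T1)
    (ν := Λ / T1) (aw := 1 / l8 ^ 2) (al := al) (k := k) W hN
    (fun i => (add_le_add (hcol i) le_rfl).trans (le_max_left _ _)) hc hrow hz
    (by linarith) le_rfl hT10.le (by positivity) (by rw [div_le_one hT10]; exact hT1Λ) hal0 hal1
    (by
      rw [← hl8]
      have e : 8 * (1 / l8 ^ 2) * l8 ^ 2 = 8 := by field_simp
      rw [e]; linarith) hW2 hWexp (by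
      rw [hβ]
      refine le_trans ?_ hexp
      apply mul_le_mul_of_nonneg_left (exp_le_exp.2 (by linarith)) (by positivity)) ρ hρ
  obtain ⟨g, g1, g2⟩ := hW3 {u | |y u| < 1} (fun S hS => by
    obtain ⟨u, hu, hu1⟩ := y3 S hS
    exact ⟨u, hu, fun hh => by
      have hh' : |y u| < 1 := hh
      rw [hu1] at hh'
      exact lt_irrefl _ hh'⟩)
  have hl64 : 0 ≤ log (64 * N) := log_nonneg (by linarith)
  have hsmall : ∀ j, ∑ u, (if |y u| < 1 ∧ c j u ^ 2 ≤ al then c j u ^ 2 else 0)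
      ≤ (1 + dw) * (al * log (64 * N)) := by
    intro j
    obtain ⟨A, hA1, hA2, hA3⟩ := h2 V (Ad c (1 / l8 ^ 2)) dw
      (fun u => if c j u ^ 2 ≤ al then c j u ^ 2 else 0) (Finset.univ.filter fun u => |y u| < 1)
      (Ad_symm c _) hd1 (fun v => by split_ifs; exacts [sq_nonneg _, le_rfl])
    have a1 := y4 j A (fun u hu => (Finset.mem_filter.1 (hA1 hu)).2) hA2
    have a2 : ∑ u, (if |y u| < 1 ∧ c j u ^ 2 ≤ al then c j u ^ 2 else 0)
        = ∑ v ∈ Finset.univ.filter (fun u => |y u| < 1),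
          (if c j v ^ 2 ≤ al then c j v ^ 2 else 0) := by
      rw [Finset.sum_filter]
      refine Finset.sum_congr rfl fun u _ => ?_
      by_cases hu : |y u| < 1
      · simp [hu]
      · simp [hu]
    rw [a2]
    calc _ ≤ _ := hA3
      _ ≤ (dw + 1) * (al * log (64 * N)) := by
          apply mul_le_mul_of_nonneg_left a1; positivity
      _ = _ := by ring
  have hom0 : 0 ≤ (1 + dw) * (al * log (64 * N)) := by positivity
  obtain ⟨χ, x1, x2, x3, x4⟩ := flpK c y g (al := al) (om := (1 + dw) * (al * log (64 * N))) (N := N)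
    (T := T) (Λ := Λ) (nc := (1 + dw) * k) hom0 hN hcol hc hT y1 (fun v => g2 v)
    (fun j u u' hu hu' e1 e2 => g1 u u' hu hu' ⟨j, e1, e2⟩) hsmall (by
      push_cast
      have hal' : al * (32 * P ^ 2 * l8 ^ 3) = 1 := by
        rw [hal]; field_simp
      rw [← hl8]
      calc 8 * ((1 + dw : ℝ) * k) * ((1 + dw) * (al * log (64 * N))) * l8
          ≤ 8 * (P * (2 * l8)) * (P * (al * (2 * l8))) * l8 := by gcongr
        _ = al * (32 * P ^ 2 * l8 ^ 3) := by ring
        _ = 1 := hal') hΛ1 (by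
      push_cast
      refine le_trans ?_ h8P
      calc 4 * ((1 + dw : ℝ) * k) ≤ 4 * (P * (2 * l8)) := by gcongr
        _ = 8 * P * l8 := by ring) ρ hρ
  refine ⟨χ, x1, fun j => ?_, fun k' => ?_⟩
  · have e : ∑ i, c j i * (χ i - z i) = ∑ i, c j i * (χ i - y i) + ∑ i, c j i * (y i - z i) := by
      rw [← Finset.sum_add_distrib]
      exact Finset.sum_congr rfl fun i _ => by ring
    rw [e]
    refine (abs_add_le _ _).trans ?_
    have hLL1 : 1 ≤ LL B N := LL_one hB hN3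
    have b1 := (y2 j).trans (num_w (by linarith : 0 ≤ T + 1) hΛ1)
    have b1' : √(T + 1) ≤ 2 * √T := by
      have f : √(4 * T) = 2 * √T := by
        rw [sqrt_mul (by norm_num), show (4 : ℝ) = 2 ^ 2 by norm_num, sqrt_sq (by norm_num)]
      rw [← f]
      exact sqrt_le_sqrt (by linarith)
    have hgs : gs (LL B N) = √(LL B N) * (1 + log (LL B N)) := rfl
    rw [hgs]
    have b2 := x3 j
    have hsT : 0 ≤ √T := sqrt_nonneg _
    have hlogL : 0 ≤ log (LL B N) := log_nonneg hLL1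
    have hsL : 1 ≤ √(LL B N) := Real.one_le_sqrt.2 hLL1
    have b3 : √Λ ≤ 18 * √(LL B N) := by
      have h324 : √(324 : ℝ) = 18 := by
        rw [show (324 : ℝ) = 18 ^ 2 by norm_num, sqrt_sq (by norm_num)]
      rw [← h324, ← sqrt_mul (by norm_num)]
      apply sqrt_le_sqrt
      linarith
    have b4 : log Λ ≤ 6 + log (LL B N) := by
      have f1 : log Λ ≤ log (300 * LL B N) := log_le_log (by linarith) hΛL
      rw [log_mul (by norm_num) (by linarith)] at f1
      have f2 : log (300 : ℝ) ≤ 6 := by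
        rw [log_le_iff_le_exp (by norm_num)]
        have h6 := Real.exp_one_gt_d9
        have h7 : exp (6 : ℝ) = exp 1 ^ 6 := by
          rw [← exp_nat_mul]; norm_num
        rw [h7]
        have h9 : (2.7 : ℝ) ^ 6 ≤ exp 1 ^ 6 := pow_le_pow_left₀ (by norm_num) (by linarith) 6
        refine le_trans ?_ h9
        norm_num
      linarith
    have b5 : √Λ * (1 + log Λ) ≤ 18 * √(LL B N) * (7 * (1 + log (LL B N))) := by
      apply mul_le_mul b3 _ _ (by positivity)
      · linarith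
      · have := log_nonneg hΛ1
        linarith
    have b6 : 0 ≤ √(LL B N) * log (LL B N) := by positivity
    nlinarith
  · have hLL1 : 1 ≤ LL B N := LL_one hB hN3
    have e : ∑ i, rr k' i * (χ i - z i)
        = nr k' * (∑ i, ρ k' i * (χ i - y i) + ∑ i, ρ k' i * (y i - z i)) := by
      rw [hrr, ← Finset.sum_add_distrib]
      congr 1
      exact Finset.sum_congr rfl fun i _ => by ring
    rw [e, abs_mul, abs_of_nonneg (hnr0 k'), mul_comm]
    refine mul_le_mul_of_nonneg_right ?_ (hnr0 k')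
    refine (abs_add_le _ _).trans ?_
    have b1 := x4 k'
    have b2 := y2' k'
    rw [← hl8] at b1 b2
    exact numK hB hN3 hl8 hl83 hTB hT1' hT1 hΛ1 hΛL (by
      push_cast
      refine le_trans ?_ h8P
      calc 4 * ((1 + dw : ℝ) * k) ≤ 4 * (P * (2 * l8)) := by gcongr
        _ = 8 * P * l8 := by ring) b1 b2

/-- RTK, without hypotheses -/
theorem rtk_proof : RTK 3000000 := rtk_of Pool.Agent.Helper53.BO.stcount_proof
  Pool.Agent.Helper53.BO.stgreedy_proof Pool.Agent.Helper53.BO.stdeg_proof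


end Pool.Agent.Helper98.BK
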